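import Pool.Agent.FHQ.StmtsU

/-!
# Squad FHQ: row BAS (basic properties of the ultraproduct)
-/

open scoped BigOperators

noncomputable section

namespace Pool.Agent.FHQ.H33

open Polynomial Pool.Agent.FHQ

variable (p : ℕ → ℕ) [∀ i, Fact (p i).Prime] (U : Ultrafilter ℕ)

/-- the quotient map -/
def mk : (∀ i, AlgebraicClosure (ZMod (p i))) →+* UF p U := Ideal.Quotient.mk (UJ p U)

theorem mk_surj (a : UF p U) : ∃ f, mk p U f = a := Ideal.Quotient.mk_surjective a

theorem mk_eq {f g : ∀ i, AlgebraicClosure (ZMod (p i))} :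
    mk p U f = mk p U g ↔ ∀ᶠ i in (U : Filter ℕ), f i = g i := by
  unfold mk
  rw [Ideal.Quotient.eq, mem_UJ]
  constructor
  · intro h
    exact h.mono fun i hi => sub_eq_zero.1 hi
  · intro h
    exact h.mono fun i hi => sub_eq_zero.2 hi

theorem mk_eq_zero {f : ∀ i, AlgebraicClosure (ZMod (p i))} :
    mk p U f = 0 ↔ ∀ᶠ i in (U : Filter ℕ), f i = 0 := by
  rw [← map_zero (mk p U), mk_eq]
  rfl

theorem Ph_mk (f : ∀ i, AlgebraicClosure (ZMod (p i))) :
    Ph p U (mk p U f) = mk p U (fun i => f i ^ p i) := rfl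

/-- `emb` as a ring homomorphism -/
def embR : (∀ i, ZMod (p i)) →+* UF p U :=
  (mk p U).comp (RingHom.pi fun i =>
    (algebraMap (ZMod (p i)) (AlgebraicClosure (ZMod (p i)))).comp (Pi.evalRingHom _ i))

theorem embR_apply (x : ∀ i, ZMod (p i)) : embR p U x = emb p U x := rfl

theorem emb_mk (x : ∀ i, ZMod (p i)) : emb p U x =
    mk p U (fun i => algebraMap (ZMod (p i)) (AlgebraicClosure (ZMod (p i))) (x i)) := rfl

theorem emb_eq {x y : ∀ i, ZMod (p i)} :
    emb p U x = emb p U y ↔ ∀ᶠ i in (U : Filter ℕ), x i = y i := by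
  rw [emb_mk, emb_mk, mk_eq]
  constructor
  · intro h
    exact h.mono fun i hi => (algebraMap (ZMod (p i)) (AlgebraicClosure (ZMod (p i)))).injective hi
  · intro h
    exact h.mono fun i hi => by rw [hi]

theorem fixed_prime {q : ℕ} [Fact q.Prime] (y : AlgebraicClosure (ZMod q)) (h : y ^ q = y) :
    ∃ z : ZMod q, algebraMap (ZMod q) (AlgebraicClosure (ZMod q)) z = y := by
  have h1 := (Subfield.mem_bot_iff_pow_eq_self (AlgebraicClosure (ZMod q)) q).2 h
  rw [← ZMod.fieldRange_castHom_eq_bot q] at h1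
  obtain ⟨z, hz⟩ := RingHom.mem_fieldRange.1 h1
  refine ⟨z, ?_⟩
  rw [← hz]
  exact congrFun (congrArg DFunLike.coe (Subsingleton.elim
    (algebraMap (ZMod q) (AlgebraicClosure (ZMod q))) (ZMod.castHom (m := q) dvd_rfl _))) z

theorem root (P : (UF p U)[X]) (hP : P.Monic) (hd : 0 < P.natDegree) : ∃ x, P.eval x = 0 := by
  classical
  obtain ⟨c, hc⟩ := Classical.axiomOfChoice fun j : ℕ => mk_surj p U (P.coeff j)
  have hroot : ∀ i, ∃ t : AlgebraicClosure (ZMod (p i)),
      t ^ P.natDegree + ∑ j ∈ Finset.range P.natDegree, c j i * t ^ j = 0 := by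
    intro i
    have hdeg : (∑ j ∈ Finset.range P.natDegree,
        (C (c j i) * X ^ j : (AlgebraicClosure (ZMod (p i)))[X])).degree < P.natDegree := by
      refine (degree_sum_le _ _).trans_lt ?_
      rw [Finset.sup_lt_iff (WithBot.bot_lt_coe _)]
      intro j hj
      exact (degree_C_mul_X_pow_le j _).trans_lt (by
        exact_mod_cast Finset.mem_range.1 hj)
    have hd2 : (X ^ P.natDegree + ∑ j ∈ Finset.range P.natDegree,
        (C (c j i) * X ^ j : (AlgebraicClosure (ZMod (p i)))[X])).degree ≠ 0 := by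
      rw [degree_add_eq_left_of_degree_lt (by rw [degree_X_pow]; exact hdeg), degree_X_pow]
      exact_mod_cast hd.ne'
    obtain ⟨t, ht⟩ := IsAlgClosed.exists_root _ hd2
    refine ⟨t, ?_⟩
    rw [IsRoot.def, eval_add, eval_pow, eval_X, eval_finsetSum] at ht
    rw [← ht]
    congr 1
    refine Finset.sum_congr rfl fun j _ => ?_
    rw [eval_mul, eval_C, eval_pow, eval_X]
  choose t ht using hroot
  refine ⟨mk p U t, ?_⟩
  rw [eval_eq_sum_range, Finset.sum_range_succ, coeff_natDegree, hP.leadingCoeff, one_mul]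
  have h1 : ∑ j ∈ Finset.range P.natDegree, P.coeff j * mk p U t ^ j =
      mk p U (∑ j ∈ Finset.range P.natDegree, c j * t ^ j) := by
    rw [map_sum]
    refine Finset.sum_congr rfl fun j _ => ?_
    rw [map_mul, map_pow, hc j]
  rw [h1, ← map_pow, ← map_add, mk_eq_zero]
  refine Filter.Eventually.of_forall fun i => ?_
  rw [Pi.add_apply, Finset.sum_apply, add_comm]
  exact ht i

/-- **BAS** -/
theorem bas : BasStmt := by
  intro p _ U hp
  refine ⟨?_, ?_, ?_, ?_, ?_, ?_, ?_, ?_⟩
  · exact IsAlgClosed.of_exists_root _ fun P hP hirr =>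
      root p U P hP hirr.natDegree_pos
  · refine charZero_of_inj_zero fun n hn => ?_
    by_contra hn0
    rw [← map_natCast (mk p U), mk_eq_zero] at hn
    have h1 : ∀ᶠ i in (U : Filter ℕ), False := by
      filter_upwards [hn, hp (n + 1)] with i h1 h2
      have h3 : ((n : ℕ) : AlgebraicClosure (ZMod (p i))) = 0 := h1
      rw [CharP.cast_eq_zero_iff (AlgebraicClosure (ZMod (p i))) (p i)] at h3
      have := Nat.le_of_dvd (Nat.pos_of_ne_zero hn0) h3
      omega
    rw [Filter.eventually_false_iff_eq_bot] at h1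
    exact U.neBot.ne h1
  · refine ⟨(Ph p U).injective, fun a => ?_⟩
    obtain ⟨f, rfl⟩ := mk_surj p U a
    have hex : ∀ i, ∃ z, z ^ p i = f i := fun i =>
      IsAlgClosed.exists_pow_nat_eq (f i) (Fact.out : (p i).Prime).pos
    choose z hz using hex
    exact ⟨mk p U z, by rw [Ph_mk]; congr 1; funext i; exact hz i⟩
  · intro a
    constructor
    · intro h
      obtain ⟨f, rfl⟩ := mk_surj p U a
      rw [Ph_mk, mk_eq] at h
      have hex : ∀ i, ∃ z : ZMod (p i), f i ^ p i = f i →
          algebraMap (ZMod (p i)) (AlgebraicClosure (ZMod (p i))) z = f i := by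
        intro i
        by_cases hi : f i ^ p i = f i
        · obtain ⟨z, hz⟩ := fixed_prime (f i) hi
          exact ⟨z, fun _ => hz⟩
        · exact ⟨0, fun h => absurd h hi⟩
      choose z hz using hex
      refine ⟨z, ?_⟩
      rw [emb_mk, mk_eq]
      exact h.mono fun i hi => hz i hi
    · rintro ⟨x, rfl⟩
      rw [emb_mk, Ph_mk, mk_eq]
      refine Filter.Eventually.of_forall fun i => ?_
      rw [← map_pow, ZMod.pow_card]
  · intro x y
    exact ⟨map_add (embR p U) x y, map_mul (embR p U) x y⟩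
  · exact map_one (embR p U)
  · exact map_zero (embR p U)
  · intro x y
    exact emb_eq p U

end Pool.Agent.FHQ.H33
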