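import Pool.Agent.Helper33_FHQ.BAS

/-!
# Squad FHQ: row LFT (lifting polynomials)
-/

open scoped BigOperators

noncomputable section

namespace Pool.Agent.FHQ.H33

open Polynomial Pool.Agent.FHQ

/-- `F(x, t)` over a commutative ring -/
def ev' {R : Type} [CommRing R] (x t : R) (F : R[X][X]) : R := F.eval₂ (evalRingHom x) t

theorem ev_eq {k : Type} [Field k] (x t : k) (F : k[X][X]) : ev x t F = ev' x t F := rfl

theorem ev'_map {R S : Type} [CommRing R] [CommRing S] (φ : R →+* S) (x t : R) (F : R[X][X]) :
    φ (ev' x t F) = ev' (φ x) (φ t) (F.map (mapRingHom φ)) := by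
  unfold ev'
  rw [hom_eval₂, eval₂_map]
  congr 1
  ext a
  · simp
  · simp

section lift

variable (p : ℕ → ℕ) [∀ i, Fact (p i).Prime] (U : Ultrafilter ℕ)

/-- the polynomial over the product ring -/
theorem lift_glob {G' : ∀ i, (ZMod (p i))[X][X]} {G : (UF p U)[X][X]} (h : Lift p U G' G) :
    ∃ Q : (∀ i, ZMod (p i))[X][X],
      (∀ i, Q.map (mapRingHom (Pi.evalRingHom (fun i => ZMod (p i)) i)) = G' i) ∧
      Q.map (mapRingHom (embR p U)) = G := by
  classical
  obtain ⟨B, hB⟩ := h.bd
  have hco : ∀ (S : Type) [CommRing S] (c : ℕ → ℕ → S) (a b : ℕ),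
      ((∑ b ∈ Finset.range (B + 1), monomial b
        (∑ a ∈ Finset.range (B + 1), monomial a (c b a)) : S[X][X]).coeff b).coeff a =
        if b ≤ B ∧ a ≤ B then c b a else 0 := by
    intro S _ c a b
    rw [finsetSum_coeff]
    simp only [coeff_monomial]
    rw [Finset.sum_ite_eq' (Finset.range (B + 1)) b]
    by_cases hb : b ≤ B
    · rw [if_pos (Finset.mem_range.2 (by omega)), finsetSum_coeff]
      simp only [coeff_monomial]
      rw [Finset.sum_ite_eq' (Finset.range (B + 1)) a]
      by_cases ha : a ≤ B
      · rw [if_pos (Finset.mem_range.2 (by omega)), if_pos ⟨hb, ha⟩]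
      · rw [if_neg (fun h => ha (by have := Finset.mem_range.1 h; omega)),
          if_neg (fun h => ha h.2)]
    · rw [if_neg (fun h => hb (by have := Finset.mem_range.1 h; omega)), if_neg (fun h => hb h.1)]
      simp
  have hG' : ∀ i a b, ((G' i).coeff b).coeff a =
      if b ≤ B ∧ a ≤ B then ((G' i).coeff b).coeff a else 0 := by
    intro i a b
    split_ifs with hab
    · rfl
    · by_cases hb : b ≤ B
      · have ha : B < a := by
          by_contra hcon
          exact hab ⟨hb, by omega⟩
        exact coeff_eq_zero_of_natDegree_lt (lt_of_le_of_lt ((hB i).2 b) ha)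
      · rw [coeff_eq_zero_of_natDegree_lt (lt_of_le_of_lt (hB i).1 (by omega : B < b)), coeff_zero]
  refine ⟨∑ b ∈ Finset.range (B + 1), monomial b
        (∑ a ∈ Finset.range (B + 1), monomial a (fun i => ((G' i).coeff b).coeff a)), ?_, ?_⟩
  · intro i
    ext b a
    rw [coeff_map, coe_mapRingHom, coeff_map, hco, hG' i a b]
    split_ifs
    · rfl
    · rfl
  · ext b a
    rw [coeff_map, coe_mapRingHom, coeff_map, hco, ← h.co a b, embR_apply]
    have h2 : (fun i => ((G' i).coeff b).coeff a) =
        fun i => if b ≤ B ∧ a ≤ B then ((G' i).coeff b).coeff a else 0 := by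
      funext i
      exact hG' i a b
    rw [h2]
    split_ifs
    · rfl
    · rfl

/-- reductions of a polynomial over the product ring -/
theorem glob_lift (Q : (∀ i, ZMod (p i))[X][X]) :
    Lift p U (fun i => Q.map (mapRingHom (Pi.evalRingHom (fun i => ZMod (p i)) i)))
      (Q.map (mapRingHom (embR p U))) := by
  classical
  constructor
  · refine ⟨max Q.natDegree (Q.support.sup fun b => (Q.coeff b).natDegree), fun i => ⟨?_, ?_⟩⟩
    · exact natDegree_map_le.trans (le_max_left _ _)
    · intro b
      rw [coeff_map, coe_mapRingHom]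
      refine natDegree_map_le.trans ?_
      by_cases hb : b ∈ Q.support
      · exact (Finset.le_sup (f := fun b => (Q.coeff b).natDegree) hb).trans (le_max_right _ _)
      · rw [notMem_support_iff.1 hb, natDegree_zero]
        exact Nat.zero_le _
  · intro a b
    rw [coeff_map, coe_mapRingHom, coeff_map, embR_apply]
    congr 1
    funext i
    rw [coeff_map, coe_mapRingHom, coeff_map]
    rfl

/-- a polynomial over the product ring with image zero -/
theorem glob_zero (Q : (∀ i, ZMod (p i))[X][X]) (h : Q.map (mapRingHom (embR p U)) = 0) :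
    ∀ᶠ i in (U : Filter ℕ),
      Q.map (mapRingHom (Pi.evalRingHom (fun i => ZMod (p i)) i)) = 0 := by
  classical
  have h1 : ∀ᶠ i in (U : Filter ℕ), ∀ b ∈ Q.support, ∀ a ∈ (Q.coeff b).support,
      (Q.coeff b).coeff a i = 0 := by
    rw [Filter.eventually_all_finset]
    intro b _
    rw [Filter.eventually_all_finset]
    intro a _
    have h2 : emb p U ((Q.coeff b).coeff a) = emb p U 0 := by
      have h3 := congrArg (fun F => (Polynomial.coeff F b).coeff a) h
      simp only [coeff_map, coe_mapRingHom, coeff_zero] at h3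
      rw [← embR_apply, h3, ← embR_apply, map_zero]
    exact (emb_eq p U).1 h2
  refine h1.mono fun i hi => ?_
  ext b a
  rw [coeff_map, coe_mapRingHom, coeff_map, coeff_zero, coeff_zero]
  show (Q.coeff b).coeff a i = 0
  by_cases hb : b ∈ Q.support
  · by_cases ha : a ∈ (Q.coeff b).support
    · exact hi b hb a ha
    · rw [notMem_support_iff.1 ha]
      rfl
  · rw [notMem_support_iff.1 hb, coeff_zero]
    rfl

/-- two polynomials over the product ring with the same image -/
theorem glob_eq (Q Q' : (∀ i, ZMod (p i))[X][X])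
    (h : Q.map (mapRingHom (embR p U)) = Q'.map (mapRingHom (embR p U))) :
    ∀ᶠ i in (U : Filter ℕ),
      Q.map (mapRingHom (Pi.evalRingHom (fun i => ZMod (p i)) i)) =
      Q'.map (mapRingHom (Pi.evalRingHom (fun i => ZMod (p i)) i)) := by
  have h1 := glob_zero p U (Q - Q') (by rw [Polynomial.map_sub, h, sub_self])
  refine h1.mono fun i hi => ?_
  rw [Polynomial.map_sub] at hi
  exact sub_eq_zero.1 hi

end lift

/-- **LFT** -/
theorem lft (hBas : BasStmt) : LftStmt := by
  classical
  intro p _ U hp
  obtain ⟨_, _, _, hfix, _, _, _, _⟩ := hBas p U hp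
  refine ⟨?_, ?_, ?_, ?_, ?_⟩
  · intro G hG
    have hex : ∀ c : UF p U, ∃ x : ∀ i, ZMod (p i), (Ph p U c = c → embR p U x = c) ∧
        (c = 0 → x = 0) := by
      intro c
      by_cases h0 : c = 0
      · exact ⟨0, fun _ => by rw [map_zero, h0], fun _ => rfl⟩
      · by_cases h1 : Ph p U c = c
        · obtain ⟨x, hx⟩ := (hfix c).1 h1
          exact ⟨x, fun _ => hx, fun h => absurd h h0⟩
        · exact ⟨0, fun h => absurd h h1, fun h => absurd h h0⟩
    choose r hr1 hr2 using hex
    let Q : (∀ i, ZMod (p i))[X][X] := ∑ b ∈ G.support, monomial b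
      (∑ a ∈ (G.coeff b).support, monomial a (r ((G.coeff b).coeff a)))
    have hQ : ∀ b a, (Q.coeff b).coeff a = r ((G.coeff b).coeff a) := by
      intro b a
      have h0 : r 0 = 0 := hr2 0 rfl
      show ((∑ b ∈ G.support, monomial b
        (∑ a ∈ (G.coeff b).support, monomial a (r ((G.coeff b).coeff a))) :
          (∀ i, ZMod (p i))[X][X]).coeff b).coeff a = _
      rw [finsetSum_coeff]
      simp only [coeff_monomial]
      rw [Finset.sum_ite_eq' G.support b]
      by_cases hb : b ∈ G.support
      · rw [if_pos hb, finsetSum_coeff]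
        simp only [coeff_monomial]
        rw [Finset.sum_ite_eq' (G.coeff b).support a]
        by_cases ha : a ∈ (G.coeff b).support
        · rw [if_pos ha]
        · rw [if_neg ha, notMem_support_iff.1 ha, h0]
      · rw [if_neg hb, coeff_zero, notMem_support_iff.1 hb, coeff_zero, h0]
    refine ⟨fun i => Q.map (mapRingHom (Pi.evalRingHom (fun i => ZMod (p i)) i)), ?_⟩
    have h1 := glob_lift p U Q
    have h2 : Q.map (mapRingHom (embR p U)) = G := by
      ext b a
      rw [coeff_map, coe_mapRingHom, coeff_map, hQ]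
      exact hr1 _ (hG a b)
    rw [h2] at h1
    exact h1
  · intro G' G h x t
    obtain ⟨Q, hQ1, hQ2⟩ := lift_glob p U h
    rw [ev_eq, ← hQ2]
    show embR p U (fun i => ev (x i) (t i) (G' i)) = ev' (embR p U x) (embR p U t) _
    rw [← ev'_map]
    congr 1
    funext i
    rw [ev_eq, ← hQ1 i]
    exact (ev'_map (Pi.evalRingHom (fun i => ZMod (p i)) i) x t Q).symm
  · intro G1' G1 G2' G2 G3' G3 h1 h2 h3
    obtain ⟨Q1, a1, b1⟩ := lift_glob p U h1
    obtain ⟨Q2, a2, b2⟩ := lift_glob p U h2
    obtain ⟨Q3, a3, b3⟩ := lift_glob p U h3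
    constructor
    · intro h
      have := glob_eq p U Q3 (Q1 * Q2) (by rw [Polynomial.map_mul, b1, b2, b3, h])
      refine this.mono fun i hi => ?_
      rw [Polynomial.map_mul, a1, a2, a3] at hi
      exact hi
    · intro h
      have := glob_eq p U Q3 (Q1 + Q2) (by rw [Polynomial.map_add, b1, b2, b3, h])
      refine this.mono fun i hi => ?_
      rw [Polynomial.map_add, a1, a2, a3] at hi
      exact hi
  · intro G' G h hm
    obtain ⟨Q, hQ1, hQ2⟩ := lift_glob p U h
    have key : ∀ (S : Type) [CommRing S] (F : S[X][X]) (N : ℕ),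
        (∑ b ∈ Finset.range N, monomial b (F.coeff b)).degree < (N : WithBot ℕ) := by
      intro S _ F N
      refine (degree_sum_le _ _).trans_lt ?_
      rw [Finset.sup_lt_iff (WithBot.bot_lt_coe _)]
      intro j hj
      exact (degree_monomial_le j _).trans_lt (by exact_mod_cast Finset.mem_range.1 hj)
    have hmap : ∀ (S : Type) [CommRing S] (φ : (∀ i, ZMod (p i)) →+* S),
        (X ^ G.natDegree + ∑ b ∈ Finset.range G.natDegree, monomial b (Q.coeff b)).map
          (mapRingHom φ) = X ^ G.natDegree + ∑ b ∈ Finset.range G.natDegree,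
            monomial b ((Q.map (mapRingHom φ)).coeff b) := by
      intro S _ φ
      rw [Polynomial.map_add, Polynomial.map_pow, map_X, Polynomial.map_sum]
      congr 1
      refine Finset.sum_congr rfl fun b _ => ?_
      rw [map_monomial, coeff_map]
    have h1 := glob_eq p U Q
      (X ^ G.natDegree + ∑ b ∈ Finset.range G.natDegree, monomial b (Q.coeff b)) (by
        rw [hmap, hQ2]
        have h2 := hm.as_sum
        conv_lhs => rw [h2]
        congr 1
        refine Finset.sum_congr rfl fun b _ => ?_
        rw [C_mul_X_pow_eq_monomial])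
    refine h1.mono fun i hi => ?_
    rw [hmap, hQ1] at hi
    have h3 := key (ZMod (p i)) (G' i) G.natDegree
    constructor
    · rw [hi]
      exact monic_X_pow_add (key (ZMod (p i)) (G' i) G.natDegree)
    · rw [hi, natDegree_eq_of_degree_eq_some]
      rw [degree_add_eq_left_of_degree_lt (by rw [degree_X_pow]; exact h3), degree_X_pow]
  · intro G' G h hG
    have hex : ∃ b a, (G.coeff b).coeff a ≠ 0 := by
      by_contra hcon
      push Not at hcon
      apply hG
      ext b a
      rw [hcon b a, coeff_zero, coeff_zero]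
    obtain ⟨b, a, hab⟩ := hex
    have h1 : ¬ ∀ᶠ i in (U : Filter ℕ), ((G' i).coeff b).coeff a = 0 := by
      intro h2
      apply hab
      rw [← h.co a b, ← map_zero (embR p U), embR_apply]
      exact (emb_eq p U).2 h2
    have h2 := Ultrafilter.eventually_not.2 h1
    refine h2.mono fun i hi h0 => hi ?_
    rw [h0, coeff_zero, coeff_zero]

end Pool.Agent.FHQ.H33
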