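import Pool.Agent.FHQ.StmtsO

/-!
# Squad FHQ: row OC0 (the case that `γ` is constant)
-/

open scoped BigOperators

noncomputable section

namespace Pool.Agent.FHQ.H33

open Pool.Agent.FHQ

theorem const_of_indep {D n : ℕ} {α : Type} (f : (Fin D → Fin n) → α)
    (h : ∀ (i : Fin D) (η η' : Fin D → Fin n), (∀ j, j ≠ i → η j = η' j) → f η = f η') :
    ∀ η η' : Fin D → Fin n, f η = f η' := by
  classical
  have key : ∀ (S : Finset (Fin D)) (η η' : Fin D → Fin n), (∀ j, j ∉ S → η j = η' j) →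
      f η = f η' := by
    intro S
    induction S using Finset.induction_on with
    | empty =>
      intro η η' hη
      have : η = η' := funext fun j => hη j (Finset.notMem_empty j)
      rw [this]
    | insert i S hi ih =>
      intro η η' hη
      have h1 : f η = f (Function.update η i (η' i)) := by
        refine h i _ _ fun j hj => ?_
        rw [Function.update_of_ne hj]
      rw [h1]
      refine ih _ _ fun j hj => ?_
      by_cases hji : j = i
      · subst hji
        rw [Function.update_self]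
      · rw [Function.update_of_ne hji]
        exact hη j fun hm => by
          rcases Finset.mem_insert.1 hm with h2 | h2
          · exact hji h2
          · exact hj h2
  intro η η'
  exact key Finset.univ η η' fun j hj => absurd (Finset.mem_univ j) hj

/-- the geometry: residues of the points and of the centres -/
theorem geom (hChn : ChnStmt) (hRsc : RscStmt) (hBal : BalStmt) (hRes : ResStmt) {D n p : ℕ}
    [Fact p.Prime] {K : Type} [Field K] (A : AcF p K) (I : Finset (Fin D))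
    (P : Fin D → (Fin D → Fin n) → Pc p K) (x : (Fin D → Fin n) → K) (γ : (Fin D → Fin n) → ℤ)
    (hG : Grid A I P x γ) (hγ : ∀ η η', γ η = γ η') (η₀ : Fin D → Fin n) :
    ∃ (g : ℤ) (B : Set K) (ρ : K → ZMod p), (∀ r, ∃ y ∈ B, ρ y = r) ∧
      (∀ i ∈ I, ∀ η, ρ (x η) - ρ (P i η).c ∈ (P i η).rs g) ∧
      (∀ i, i ∉ I → ∀ η, ρ (x η) = ρ (P i η).c) ∧
      ∀ i ∈ I, ∀ η, ∀ y ∈ B, ρ y - ρ (P i η).c ∈ (P i η).rs g → y ∈ (P i η).set A := by
  obtain ⟨_, _, hself, hball, _, _, _⟩ := hBal p K A.toAcF0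
  obtain ⟨_, _, hneg, _, _, _, _, _⟩ := hRes p K A.toAcF0
  have hmon : Mon γ (∅ : Finset (Fin D)) :=
    ⟨fun η η' _ => hγ η η', fun j hj => absurd hj (Finset.notMem_empty j), Or.inl rfl⟩
  have hx : ∀ η η', x η' ∈ A.ball (x η) (γ η₀) := by
    intro η η'
    have h1 := hChn p K A D n I ∅ P x γ hG hmon η η'
    rw [hγ η η₀, hγ η' η₀, min_self] at h1
    exact h1
  have hB : ∀ η, A.ball (x η) (γ η₀) = A.ball (x η₀) (γ η₀) := fun η => hball _ _ _ (hx η₀ η)
  have hxB : ∀ η, x η ∈ A.ball (x η₀) (γ η₀) := fun η => hx η₀ η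
  have hvsub : ∀ a b : K, A.v (a - b) = A.v (b - a) := by
    intro a b
    rw [← neg_sub b a]
    exact (hneg (b - a)).2
  have hcB : ∀ i η, (P i η).c ∈ A.ball (x η₀) (γ η₀) := by
    intro i η
    rw [← hB η]
    by_cases hi : i ∈ I
    · right
      rw [hvsub, (hG.eq i hi η).2, hγ η η₀]
    · rcases hG.gt i hi η with h | h
      · left
        exact h.symm
      · right
        rw [hvsub, ← hγ η η₀]
        exact h.le
  obtain ⟨ρ, hρ1, hρ2⟩ := hRsc p K A.toAcF0 (x η₀) (γ η₀)
  refine ⟨γ η₀, A.ball (x η₀) (γ η₀), ρ, hρ1, ?_, ?_, ?_⟩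
  · intro i hi η
    obtain ⟨h1, h2⟩ := hG.eq i hi η
    have h3 := hρ2 (x η) (hxB η) (P i η).c (hcB i η)
    have h4 : ρ (x η) ≠ ρ (P i η).c := by
      intro h
      rcases h3.1.1 h with h5 | h5
      · exact h1 h5
      · rw [h2, hγ η η₀] at h5
        exact lt_irrefl _ h5
    obtain ⟨_, h6, h7⟩ := h3.2 h4
    refine ⟨sub_ne_zero.2 h4, ?_⟩
    rcases hG.mem i η with ⟨h8, _⟩ | ⟨_, h8⟩
    · exact absurd h8 h1
    · rw [← h7, ← h6]
      exact h8
  · intro i hi η
    have h3 := hρ2 (x η) (hxB η) (P i η).c (hcB i η)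
    apply h3.1.2
    rcases hG.gt i hi η with h | h
    · exact Or.inl h
    · right
      rw [← hγ η η₀]
      exact h
  · intro i _ η y hy hr
    have h3 := hρ2 y hy (P i η).c (hcB i η)
    obtain ⟨h4, h5⟩ := hr
    obtain ⟨h6, h7, h8⟩ := h3.2 (sub_ne_zero.1 h4)
    right
    refine ⟨h6, ?_⟩
    show (P i η).X (A.ac (y - (P i η).c)) (A.v (y - (P i η).c))
    rw [h7, h8]
    exact h5

theorem exists_inj {α : Type} (N : ℕ) (S : Finset α) (hS : S.card ≤ N + 1) :
    ∃ f : α → Fin (N + 1), Set.InjOn f S := by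
  classical
  refine ⟨fun r => if h : r ∈ S then Fin.castLE hS (S.equivFin ⟨r, h⟩) else 0, ?_⟩
  intro a ha b hb hab
  have ha' : a ∈ S := ha
  have hb' : b ∈ S := hb
  simp only [dif_pos ha', dif_pos hb'] at hab
  have h1 := S.equivFin.injective (Fin.castLE_injective hS hab)
  exact congrArg Subtype.val h1

/-- **OC0** -/
theorem oc0 (hChn : ChnStmt) (hRsc : RscStmt) (hBxc : BxcStmt) (hBxd : BxdStmt)
    (hBal : BalStmt) (hRes : ResStmt) : Oc0Stmt := by
  classical
  intro D N m n'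
  obtain ⟨n₀, hn₀⟩ := hBxd D n' (1 / ((N : ℝ) + 1)) (by positivity)
  obtain ⟨n₂, hn₂⟩ := hBxc D n' (Fin D → Fin (N + 1))
  obtain ⟨n, hn⟩ := hBxc D (max n₀ n₂) (Finset (Fin D))
  refine ⟨n, ?_⟩
  intro p _ K _ A I P x γ hG hT hγ
  obtain ⟨i₀, hi₀⟩ := hG.ne
  by_cases hn'0 : n' = 0
  · subst hn'0
    exact ⟨i₀, fun j a => a.elim0, fun j a => a.elim0, 0, fun η => (η i₀).elim0⟩
  have hn'pos : 0 < n' := Nat.pos_of_ne_zero hn'0
  have hn2pos : 0 < n₂ := by
    obtain ⟨s, _, _⟩ := hn₂ fun _ _ => 0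
    exact (Nat.zero_le _).trans_lt (s i₀ ⟨0, hn'pos⟩).2
  have hn1pos : 0 < max n₀ n₂ := hn2pos.trans_le (le_max_right _ _)
  have hη₀ : Nonempty (Fin D → Fin n) := by
    obtain ⟨s, _, _⟩ := hn fun _ => ∅
    exact ⟨fun j => s j ⟨0, hn1pos⟩⟩
  obtain ⟨η₀⟩ := hη₀
  obtain ⟨g, B, ρ, hρ, hin, hout, hset⟩ := geom hChn hRsc hBal hRes A I P x γ hG hγ η₀
  obtain ⟨s₁, hs₁, c, hc⟩ := hn fun η => I.filter fun i => ((P i η).rs g).ncard ≤ N
  by_cases hcase : ∃ i ∈ I, i ∉ c
  · obtain ⟨i, hiI, hic⟩ := hcase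
    have hbig : ∀ η : Fin D → Fin (max n₀ n₂), p ≤ N * ((P i (sg s₁ η)).rs g).ncard := by
      intro η
      rcases (hT i (sg s₁ η)).dich g with h | h
      · exfalso
        apply hic
        rw [← hc η]
        exact Finset.mem_filter.2 ⟨hiI, h⟩
      · exact h
    have hp0 : 0 < p := (Fact.out : p.Prime).pos
    have hN0 : 0 < N := by
      rcases Nat.eq_zero_or_pos N with h | h
      · have := hbig fun _ => ⟨0, hn1pos⟩
        rw [h, Nat.zero_mul] at this
        omega
      · exact h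
    have hex : ∃ r : ZMod p, 1 / ((N : ℝ) + 1) * ((max n₀ n₂ : ℕ) : ℝ) ^ D ≤
        ({η : Fin D → Fin (max n₀ n₂) | r - ρ (P i (sg s₁ η)).c ∈
          (P i (sg s₁ η)).rs g}.ncard : ℝ) := by
      by_contra hcon
      push Not at hcon
      have h1 : ∑ r : ZMod p, ({η : Fin D → Fin (max n₀ n₂) | r - ρ (P i (sg s₁ η)).c ∈
          (P i (sg s₁ η)).rs g}.ncard : ℝ) ≤
          ∑ _r : ZMod p, 1 / ((N : ℝ) + 1) * ((max n₀ n₂ : ℕ) : ℝ) ^ D :=
        Finset.sum_le_sum fun r _ => (hcon r).le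
      rw [Finset.sum_const, Finset.card_univ, ZMod.card, nsmul_eq_mul] at h1
      have h2 : ∑ r : ZMod p, {η : Fin D → Fin (max n₀ n₂) | r - ρ (P i (sg s₁ η)).c ∈
          (P i (sg s₁ η)).rs g}.ncard =
          ∑ η : Fin D → Fin (max n₀ n₂), ((P i (sg s₁ η)).rs g).ncard := by
        have e1 : ∀ r : ZMod p, {η : Fin D → Fin (max n₀ n₂) | r - ρ (P i (sg s₁ η)).c ∈
          (P i (sg s₁ η)).rs g}.ncard = (Finset.bipartiteAbove
            (fun (r : ZMod p) (η : Fin D → Fin (max n₀ n₂)) => r - ρ (P i (sg s₁ η)).c ∈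
              (P i (sg s₁ η)).rs g) Finset.univ r).card := by
          intro r
          rw [← Set.ncard_coe_finset]
          congr 1
          ext η
          simp [Finset.bipartiteAbove]
        have e2 : ∀ η : Fin D → Fin (max n₀ n₂), ((P i (sg s₁ η)).rs g).ncard =
            (Finset.bipartiteBelow
            (fun (r : ZMod p) (η : Fin D → Fin (max n₀ n₂)) => r - ρ (P i (sg s₁ η)).c ∈
              (P i (sg s₁ η)).rs g) Finset.univ η).card := by
          intro η
          rw [← Set.ncard_coe_finset]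
          have e3 : ((P i (sg s₁ η)).rs g) = (fun r => r - ρ (P i (sg s₁ η)).c) ''
              ((Finset.bipartiteBelow
            (fun (r : ZMod p) (η : Fin D → Fin (max n₀ n₂)) => r - ρ (P i (sg s₁ η)).c ∈
              (P i (sg s₁ η)).rs g) Finset.univ η : Finset (ZMod p)) : Set (ZMod p)) := by
            ext a
            constructor
            · intro ha
              refine ⟨a + ρ (P i (sg s₁ η)).c, ?_, by ring⟩
              simp only [Finset.bipartiteBelow, Finset.coe_filter, Finset.mem_univ, true_and]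
              show a + ρ (P i (sg s₁ η)).c - ρ (P i (sg s₁ η)).c ∈ (P i (sg s₁ η)).rs g
              rw [add_sub_cancel_right]
              exact ha
            · rintro ⟨r, hr, rfl⟩
              simp only [Finset.bipartiteBelow, Finset.coe_filter, Finset.mem_univ,
                true_and] at hr
              exact hr
          conv_lhs => rw [e3]
          exact Set.ncard_image_of_injective _ fun a b hab => sub_left_injective hab
        rw [Finset.sum_congr rfl fun r _ => e1 r, Finset.sum_congr rfl fun η _ => e2 η]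
        exact Finset.sum_card_bipartiteAbove_eq_sum_card_bipartiteBelow _
      have h3 : ((max n₀ n₂ : ℕ) : ℝ) ^ D * p ≤
          N * ∑ η : Fin D → Fin (max n₀ n₂), (((P i (sg s₁ η)).rs g).ncard : ℝ) := by
        rw [Finset.mul_sum]
        have e1 : ∑ _η : Fin D → Fin (max n₀ n₂), (p : ℝ) ≤
            ∑ η : Fin D → Fin (max n₀ n₂), (N : ℝ) * (((P i (sg s₁ η)).rs g).ncard : ℝ) :=
          Finset.sum_le_sum fun η _ => by exact_mod_cast hbig η
        rw [Finset.sum_const, Finset.card_univ, Fintype.card_fun, Fintype.card_fin,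
          Fintype.card_fin, nsmul_eq_mul, Nat.cast_pow] at e1
        exact e1
      have h2' : ∑ r : ZMod p, ({η : Fin D → Fin (max n₀ n₂) | r - ρ (P i (sg s₁ η)).c ∈
          (P i (sg s₁ η)).rs g}.ncard : ℝ) =
          ∑ η : Fin D → Fin (max n₀ n₂), (((P i (sg s₁ η)).rs g).ncard : ℝ) := by
        exact_mod_cast h2
      rw [h2'] at h1
      have hpR : (0 : ℝ) < p := by exact_mod_cast hp0
      have hNR : (0 : ℝ) < N := by exact_mod_cast hN0
      have hnR : (0 : ℝ) < ((max n₀ n₂ : ℕ) : ℝ) ^ D := by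
        have : (0 : ℝ) < ((max n₀ n₂ : ℕ) : ℝ) := by exact_mod_cast hn1pos
        positivity
      have h4 := mul_le_mul_of_nonneg_left h1 hNR.le
      have h5 : ((max n₀ n₂ : ℕ) : ℝ) ^ D * p ≤
          N * (p * (1 / ((N : ℝ) + 1) * ((max n₀ n₂ : ℕ) : ℝ) ^ D)) := h3.trans h4
      have h6 : N * (p * (1 / ((N : ℝ) + 1) * ((max n₀ n₂ : ℕ) : ℝ) ^ D)) =
          (((max n₀ n₂ : ℕ) : ℝ) ^ D * p) * (N / ((N : ℝ) + 1)) := by
        field_simp
      rw [h6] at h5
      have h7 : (N : ℝ) / ((N : ℝ) + 1) < 1 := by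
        rw [div_lt_one (by positivity)]
        linarith
      have h8 := mul_lt_mul_of_pos_left h7 (mul_pos hnR hpR)
      linarith
    obtain ⟨r, hr⟩ := hex
    obtain ⟨s, hs, hsE⟩ := hn₀ (max n₀ n₂) (le_max_left _ _) _ hr
    obtain ⟨z, hzB, hz⟩ := hρ r
    refine ⟨i, fun j a => s₁ j (s j a), fun j a b hab => (hs j).injective
      ((hs₁ j).injective hab), z, fun η => ?_⟩
    refine hset i hiI _ z hzB ?_
    rw [hz]
    exact hsE η
  · push Not at hcase
    have hsmall : ∀ i ∈ I, ∀ η : Fin D → Fin (max n₀ n₂),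
        ((P i (sg s₁ η)).rs g).ncard ≤ N := by
      intro i hi η
      have h1 := hcase i hi
      rw [← hc η] at h1
      exact (Finset.mem_filter.1 h1).2
    let L : Fin D → Pc p K → Finset (ZMod p) := fun i Q =>
      if i ∈ I then Finset.univ.filter (fun r => r - ρ Q.c ∈ Q.rs g) else {ρ Q.c}
    have hLc : ∀ i (η : Fin D → Fin (max n₀ n₂)), (L i (P i (sg s₁ η))).card ≤ N + 1 := by
      intro i η
      show (if i ∈ I then Finset.univ.filter (fun r => r - ρ (P i (sg s₁ η)).c ∈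
        (P i (sg s₁ η)).rs g) else {ρ (P i (sg s₁ η)).c}).card ≤ N + 1
      split_ifs with hi
      · have h1 := hsmall i hi η
        have h2 : (Finset.univ.filter (fun r => r - ρ (P i (sg s₁ η)).c ∈
            (P i (sg s₁ η)).rs g)).card ≤ ((P i (sg s₁ η)).rs g).ncard := by
          rw [← Set.ncard_coe_finset]
          refine Set.ncard_le_ncard_of_injOn (fun r => r - ρ (P i (sg s₁ η)).c) ?_ ?_
            (Set.toFinite _)
          · intro r hr
            exact (Finset.mem_filter.1 (Finset.mem_coe.1 hr)).2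
          · intro a _ b _ hab
            exact sub_left_injective hab
        omega
      · simp
    have hLm : ∀ i (η : Fin D → Fin (max n₀ n₂)), ρ (x (sg s₁ η)) ∈ L i (P i (sg s₁ η)) := by
      intro i η
      show ρ (x (sg s₁ η)) ∈ (if i ∈ I then Finset.univ.filter (fun r =>
        r - ρ (P i (sg s₁ η)).c ∈ (P i (sg s₁ η)).rs g) else {ρ (P i (sg s₁ η)).c})
      split_ifs with hi
      · exact Finset.mem_filter.2 ⟨Finset.mem_univ _, hin i hi _⟩
      · exact Finset.mem_singleton.2 (hout i hi _)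
    have hex : ∀ S : Finset (ZMod p), ∃ f : ZMod p → Fin (N + 1), S.card ≤ N + 1 →
        Set.InjOn f S := by
      intro S
      by_cases hS : S.card ≤ N + 1
      · obtain ⟨f, hf⟩ := exists_inj N S hS
        exact ⟨f, fun _ => hf⟩
      · exact ⟨fun _ => 0, fun h => absurd h hS⟩
    choose e he using hex
    let s₂ : Fin D → Fin n₂ → Fin (max n₀ n₂) := fun _ a => Fin.castLE (le_max_right _ _) a
    obtain ⟨s₃, hs₃, k, hk⟩ := hn₂ fun η i =>
      e (L i (P i (sg s₁ (sg s₂ η)))) (ρ (x (sg s₁ (sg s₂ η))))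
    have hconst := const_of_indep (fun η : Fin D → Fin n' =>
      ρ (x (sg s₁ (sg s₂ (sg s₃ η))))) (by
      intro i η η' hηη
      have h1 := congrFun (hk η) i
      have h2 := congrFun (hk η') i
      have h3 : P i (sg s₁ (sg s₂ (sg s₃ η))) = P i (sg s₁ (sg s₂ (sg s₃ η'))) := by
        refine hG.ind i _ _ fun j hj => ?_
        show s₁ j (s₂ j (s₃ j (η j))) = s₁ j (s₂ j (s₃ j (η' j)))
        rw [hηη j hj]
      have h4 := hLm i (sg s₂ (sg s₃ η))
      have h5 := hLm i (sg s₂ (sg s₃ η'))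
      have h6 := hLc i (sg s₂ (sg s₃ η'))
      rw [h3] at h4 h1
      exact he _ h6 h4 h5 (h1.trans h2.symm))
    obtain ⟨z, hzB, hz⟩ := hρ (ρ (x (sg s₁ (sg s₂ (sg s₃ fun _ => ⟨0, hn'pos⟩)))))
    refine ⟨i₀, fun j a => s₁ j (s₂ j (s₃ j a)), fun j a b hab => ?_, z, fun η => ?_⟩
    · exact (hs₃ j).injective (Fin.castLE_injective (le_max_right _ _) ((hs₁ j).injective hab))
    · refine hset i₀ hi₀ _ z hzB ?_
      rw [hz]
      have h1 := hin i₀ hi₀ (sg s₁ (sg s₂ (sg s₃ η)))
      have h2 := hconst (fun _ => ⟨0, hn'pos⟩) η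
      rw [h2]
      exact h1

end Pool.Agent.FHQ.H33
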