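import Pool.Agent.FHQ.StmtsO

/-!
# Squad FHQ: row R2 (Ramsey's theorem for pairs)
-/

open scoped BigOperators

noncomputable section

namespace Pool.Agent.FHQ.H33

open Pool.Agent.FHQ

/-- the colour of a pair depends only on the smaller element -/
theorem ramsey_pre (C : Type) [Fintype C] [DecidableEq C] [Nonempty C] : ∀ L : ℕ, ∃ N : ℕ,
    ∀ (n : ℕ) (S : Finset (Fin n)), N ≤ S.card → ∀ col : Fin n → Fin n → C,
    ∃ T ⊆ S, T.card = L ∧ ∃ c : Fin n → C, ∀ x ∈ T, ∀ y ∈ T, x < y → col x y = c x := by
  intro L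
  induction L with
  | zero =>
    exact ⟨0, fun n S _ col => ⟨∅, Finset.empty_subset _, rfl, fun _ => Classical.arbitrary C,
      by simp⟩⟩
  | succ L ih =>
    obtain ⟨N, hN⟩ := ih
    refine ⟨1 + Fintype.card C * N, fun n S hS col => ?_⟩
    have hne : S.Nonempty := by
      rw [← Finset.card_pos]
      omega
    have hx := S.min'_mem hne
    have hcard : Fintype.card C * N ≤ (S.erase (S.min' hne)).card := by
      rw [Finset.card_erase_of_mem hx]
      omega
    obtain ⟨c0, _, hc0⟩ := Finset.exists_le_card_fiber_of_mul_le_card_of_maps_to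
      (s := S.erase (S.min' hne)) (t := (Finset.univ : Finset C))
      (f := fun y => col (S.min' hne) y) (fun _ _ => Finset.mem_univ _) Finset.univ_nonempty
      (by rw [Finset.card_univ]; exact hcard)
    obtain ⟨T, hT1, hT2, c, hc⟩ := hN n _ hc0 col
    have hTS : ∀ y ∈ T, y ∈ S ∧ y ≠ S.min' hne ∧ col (S.min' hne) y = c0 := by
      intro y hy
      obtain ⟨h1, h2⟩ := Finset.mem_filter.1 (hT1 hy)
      obtain ⟨h3, h4⟩ := Finset.mem_erase.1 h1
      exact ⟨h4, h3, h2⟩
    have hxT : S.min' hne ∉ T := fun h => (hTS _ h).2.1 rfl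
    refine ⟨insert (S.min' hne) T, ?_, ?_, Function.update c (S.min' hne) c0, ?_⟩
    · intro y hy
      rcases Finset.mem_insert.1 hy with rfl | hy
      · exact hx
      · exact (hTS y hy).1
    · rw [Finset.card_insert_of_notMem hxT, hT2]
    · intro y hy z hz hyz
      have hzT : z ∈ T := by
        rcases Finset.mem_insert.1 hz with h | h
        · exfalso
          rcases Finset.mem_insert.1 hy with h' | h'
          · rw [h, h'] at hyz
            exact lt_irrefl _ hyz
          · rw [h] at hyz
            exact absurd (S.min'_le y (hTS y h').1) (not_le.2 hyz)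
        · exact h
      rcases Finset.mem_insert.1 hy with h | h
      · rw [h, Function.update_self]
        exact (hTS z hzT).2.2
      · rw [Function.update_of_ne (hTS y h).2.1]
        exact hc y h z hzT hyz

/-- **R2** -/
theorem r2 : R2Stmt := by
  classical
  intro C _ n'
  by_cases hC : Nonempty C
  · have := Fintype.ofFinite C
    obtain ⟨N, hN⟩ := ramsey_pre C (Fintype.card C * n')
    refine ⟨N, fun col => ?_⟩
    obtain ⟨T, _, hT2, c, hc⟩ := hN N Finset.univ (by simp) col
    obtain ⟨c0, _, hc0⟩ := Finset.exists_le_card_fiber_of_mul_le_card_of_maps_to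
      (s := T) (t := (Finset.univ : Finset C)) (f := c) (fun _ _ => Finset.mem_univ _)
      Finset.univ_nonempty (by rw [Finset.card_univ]; exact hT2.ge)
    obtain ⟨T', hT'1, hT'2⟩ := Finset.exists_subset_card_eq hc0
    refine ⟨fun a => T'.orderEmbOfFin hT'2 a, (T'.orderEmbOfFin hT'2).strictMono, c0, ?_⟩
    intro a b hab
    have h1 := Finset.mem_filter.1 (hT'1 (T'.orderEmbOfFin_mem hT'2 a))
    have h2 := Finset.mem_filter.1 (hT'1 (T'.orderEmbOfFin_mem hT'2 b))
    rw [hc _ h1.1 _ h2.1 ((T'.orderEmbOfFin hT'2).strictMono hab)]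
    exact h1.2
  · refine ⟨1, fun col => ?_⟩
    exact absurd ⟨col 0 0⟩ hC

end Pool.Agent.FHQ.H33
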